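import Pool.Agent.TH571.PCV.Thrice

set_option autoImplicit false
set_option maxHeartbeats 4000000

/-!
The counting theorem of `TH571/PCV` from the Weyl inequalities alone (helper183).
-/

namespace Pool.Agent.Q183.PC

open Finset Pool.Agent.TH571.PCV

/-- The bounds for the function attached to two points; at the other points `i` all but `m i` of
the exponents are congruent to `g i`. -/
theorem block_gen {n r : ℕ} (N : ℕ) (hN : 0 < N) (e : Fin (n + 1) → Fin r → ℤ)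
    (i₁ i₂ : Fin (n + 1)) (h12 : i₁ ≠ i₂) (g : Fin (n + 1) → ℤ) (m : ℕ)
    (hm : ∑ i ∈ (Finset.univ.erase i₁).erase i₂,
      (Finset.univ.filter fun l => ¬ (N : ℤ) ∣ e i l - g i).card ≤ m)
    (a : ℤ) (ha : IsCoprime a (N : ℤ))
    (hlow : ∀ x : Fin (n + 1) → ℤ, ∑ i, x i = 1 →
      (r : ℤ) * (N - 1) ≤ ∑ i, ∑ l, (a * e i l - x i) % (N : ℤ))
    (hup : ∀ x : Fin (n + 1) → ℤ, ∑ i, x i = n →
      ∑ i, ∑ l, (a * e i l - x i) % (N : ℤ) ≤ (n : ℤ) * (r * (N - 1))) :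
    ∃ C : ℤ, ∀ x : ℤ,
      0 ≤ C + (∑ l, (a * e i₁ l - x) % (N : ℤ) - ∑ l, (a * (-e i₂ l -
        ∑ i ∈ (Finset.univ.erase i₁).erase i₂, g i) - x) % (N : ℤ)) ∧
      C + (∑ l, (a * e i₁ l - x) % (N : ℤ) - ∑ l, (a * (-e i₂ l -
        ∑ i ∈ (Finset.univ.erase i₁).erase i₂, g i) - x) % (N : ℤ)) ≤ N * m := by
  classical
  have hN' : (0 : ℤ) < N := by exact_mod_cast hN
  set T : Finset (Fin (n + 1)) := (Finset.univ.erase i₁).erase i₂ with hT
  set G : ℤ := ∑ i ∈ T, g i with hG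
  have hsplit : ∀ f : Fin (n + 1) → ℤ, ∑ i, f i = f i₁ + (f i₂ + ∑ i ∈ T, f i) := by
    intro f
    rw [← Finset.add_sum_erase Finset.univ f (Finset.mem_univ i₁),
      ← Finset.add_sum_erase (Finset.univ.erase i₁) f
        (Finset.mem_erase.2 ⟨h12.symm, Finset.mem_univ i₂⟩)]
  have hT1 : i₁ ∉ T := by simp [hT]
  have hT2 : i₂ ∉ T := by simp [hT]
  have hcard : T.card = n - 1 := by
    rw [hT, Finset.card_erase_of_mem (Finset.mem_erase.2 ⟨h12.symm, Finset.mem_univ i₂⟩),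
      Finset.card_erase_of_mem (Finset.mem_univ i₁), Finset.card_univ, Fintype.card_fin]
    omega
  have hn : 1 ≤ n := by
    rcases Nat.eq_zero_or_pos n with h | h
    · subst h
      exact absurd (Fin.ext (by omega)) h12
    · exact h
  refine ⟨∑ i ∈ T, ∑ l, (a * (e i l - g i)) % (N : ℤ), fun x => ?_⟩
  have hi2 : ∀ l, (a * e i₂ l - (1 - x - a * G)) % (N : ℤ) =
      (N - 1) - (a * (-e i₂ l - G) - x) % (N : ℤ) := by
    intro l
    rw [← neg_sub_one_emod hN']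
    congr 1
    ring
  have hTs : ∀ (xx : Fin (n + 1) → ℤ), (∀ i ∈ T, xx i = a * g i) →
      ∑ i ∈ T, ∑ l, (a * e i l - xx i) % (N : ℤ) = ∑ i ∈ T, ∑ l, (a * (e i l - g i)) % (N : ℤ) := by
    intro xx hX
    refine Finset.sum_congr rfl fun i hi => Finset.sum_congr rfl fun l _ => ?_
    rw [hX i hi]
    congr 1
    ring
  constructor
  · let xx : Fin (n + 1) → ℤ := fun i => if i = i₁ then x else if i = i₂ then 1 - x - a * G else
      a * g i
    have hX1 : xx i₁ = x := if_pos rfl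
    have hX2 : xx i₂ = 1 - x - a * G := by
      simp only [xx]; rw [if_neg h12.symm]; simp
    have hX3 : ∀ i ∈ T, xx i = a * g i := by
      intro i hi
      simp only [xx]
      have hne1 : i ≠ i₁ := fun h => hT1 (h ▸ hi)
      have hne2 : i ≠ i₂ := fun h => hT2 (h ▸ hi)
      rw [if_neg hne1, if_neg hne2]
    have h1 := hlow xx (by
      rw [hsplit, hX1, hX2, Finset.sum_congr rfl hX3, ← Finset.mul_sum]
      ring)
    rw [hsplit, hTs xx hX3, hX1, hX2, Finset.sum_congr rfl fun l _ => hi2 l,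
      Finset.sum_sub_distrib, Finset.sum_const, Finset.card_univ, Fintype.card_fin,
      nsmul_eq_mul] at h1
    linarith
  · let xx : Fin (n + 1) → ℤ := fun i => if i = i₁ then x else if i = i₂ then 1 - x - a * G else
      a * g i + 1
    have hX1 : xx i₁ = x := if_pos rfl
    have hX2 : xx i₂ = 1 - x - a * G := by
      simp only [xx]; rw [if_neg h12.symm]; simp
    have hX3 : ∀ i ∈ T, xx i = a * g i + 1 := by
      intro i hi
      simp only [xx]
      have hne1 : i ≠ i₁ := fun h => hT1 (h ▸ hi)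
      have hne2 : i ≠ i₂ := fun h => hT2 (h ▸ hi)
      rw [if_neg hne1, if_neg hne2]
    have h1 := hup xx (by
      rw [hsplit, hX1, hX2, Finset.sum_congr rfl hX3, Finset.sum_add_distrib, ← Finset.mul_sum,
        Finset.sum_const, hcard, nsmul_eq_mul, Nat.cast_sub hn]
      push_cast
      ring)
    have h2 : ∀ i ∈ T, ∑ l, (a * e i l - xx i) % (N : ℤ) =
        ∑ l, (a * (e i l - g i)) % (N : ℤ) + (r * (N - 1) -
          N * ((Finset.univ.filter fun l => ¬ (N : ℤ) ∣ e i l - g i).card : ℤ)) := by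
      intro i hi
      have h3 : ∀ l, (a * e i l - xx i) % (N : ℤ) = (a * (e i l - g i)) % (N : ℤ) +
          ((N - 1) - N * (if ¬ (N : ℤ) ∣ e i l - g i then 1 else 0)) := by
        intro l
        have h4 : a * e i l - xx i = a * (e i l - g i) - 1 := by rw [hX3 i hi]; ring
        rw [h4, sub_one_emod hN']
        have h5 : ((N : ℤ) ∣ a * (e i l - g i)) ↔ (N : ℤ) ∣ e i l - g i :=
          ⟨fun h => ha.symm.dvd_of_dvd_mul_left h, fun h => h.mul_left a⟩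
        by_cases h6 : (N : ℤ) ∣ e i l - g i
        · rw [if_pos (h5.2 h6), if_neg (not_not.2 h6)]; ring
        · rw [if_neg (fun h => h6 (h5.1 h)), if_pos h6]; ring
      rw [Finset.sum_congr rfl fun l _ => h3 l, Finset.sum_add_distrib, Finset.sum_sub_distrib,
        Finset.sum_const, Finset.card_univ, Fintype.card_fin, nsmul_eq_mul, ← Finset.mul_sum,
        Finset.card_filter]
      push_cast
      rfl
    rw [hsplit, hX1, hX2, Finset.sum_congr rfl fun l _ => hi2 l,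
      Finset.sum_sub_distrib, Finset.sum_const, Finset.card_univ, Fintype.card_fin,
      nsmul_eq_mul, Finset.sum_congr rfl h2, Finset.sum_add_distrib, Finset.sum_sub_distrib,
      Finset.sum_const, hcard, nsmul_eq_mul, Nat.cast_sub hn, ← Finset.mul_sum] at h1
    have h7 : (∑ i ∈ T, ((Finset.univ.filter fun l => ¬ (N : ℤ) ∣ e i l - g i).card : ℤ)) ≤ m := by
      exact_mod_cast hm
    have h8 := mul_le_mul_of_nonneg_left h7 hN'.le
    push_cast at h1
    linarith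

/-- The count of the classes `v` for which the Weyl inequalities fail for the multiples of the
exponents by `-v⁻¹`. -/
theorem few_gen {n r : ℕ} (lam : Fin (n + 1) → Fin r → ℚ)
    (i₁ i₂ : Fin (n + 1)) (h12 : i₁ ≠ i₂) (g : Fin (n + 1) → ℚ) (m : ℕ)
    (hm : ∑ i ∈ (Finset.univ.erase i₁).erase i₂,
      (Finset.univ.filter fun l => (lam i l - g i).den ≠ 1).card ≤ m)
    (N : ℕ) (hN : 0 < N) (e : Fin (n + 1) → Fin r → ℤ) (he : ∀ i l, (N : ℚ) * lam i l = e i l)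
    (hNg : ∀ i ∈ (Finset.univ.erase i₁).erase i₂, ∃ z : ℤ, (N : ℚ) * g i = z)
    (P : (ZMod N)ˣ → Prop)
    (hP : ∀ v : (ZMod N)ˣ, ¬ P v → ∀ a : ℤ, IsCoprime a (N : ℤ) →
      ((a : ℤ) : ZMod N) = ((-v⁻¹ : (ZMod N)ˣ) : ZMod N) →
      (∀ x : Fin (n + 1) → ℤ, ∑ i, x i = 1 →
        (r : ℤ) * (N - 1) ≤ ∑ i, ∑ l, (a * e i l - x i) % (N : ℤ)) ∧
      (∀ x : Fin (n + 1) → ℤ, ∑ i, x i = n →
        ∑ i, ∑ l, (a * e i l - x i) % (N : ℤ) ≤ (n : ℤ) * (r * (N - 1)))) :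
    ∃ S : Finset (ZMod N)ˣ, (N.totient : ℚ) * (form (lam i₁)
      (fun l => lam i₂ l + ∑ i ∈ (Finset.univ.erase i₁).erase i₂, g i) - 3 * (m : ℚ) ^ 2) ≤
        3 * ((r : ℚ) ^ 2 - (m : ℚ) ^ 2) * S.card ∧ ∀ v, v ∈ S ↔ P v := by
  classical
  have hNq : (0 : ℚ) < N := by exact_mod_cast hN
  have hN0 : (N : ℚ) ≠ 0 := hNq.ne'
  have : NeZero N := ⟨hN.ne'⟩
  set T : Finset (Fin (n + 1)) := (Finset.univ.erase i₁).erase i₂ with hT
  set γ : Fin (n + 1) → ℤ := fun i => ⌊(N : ℚ) * g i⌋ with hγ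
  have hγg : ∀ i ∈ T, (N : ℚ) * g i = γ i := by
    intro i hi
    obtain ⟨z, hz⟩ := hNg i hi
    simp only [hγ]
    rw [hz, Int.floor_intCast]
  set G : ℤ := ∑ i ∈ T, γ i with hG
  have hGq : (G : ℚ) = N * ∑ i ∈ T, g i := by
    rw [hG, Finset.mul_sum]
    push_cast
    exact Finset.sum_congr rfl fun i hi => (hγg i hi).symm
  have hm' : ∑ i ∈ T, (Finset.univ.filter fun l => ¬ (N : ℤ) ∣ e i l - γ i).card ≤ m := by
    refine le_trans (Finset.sum_le_sum fun i hi => Finset.card_le_card ?_) hm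
    intro l hl
    rw [Finset.mem_filter] at hl ⊢
    refine ⟨hl.1, fun h1 => hl.2 ?_⟩
    obtain ⟨z, hz⟩ : ∃ z : ℤ, (z : ℚ) = lam i l - g i := ⟨_, (Rat.den_eq_one_iff _).1 h1⟩
    refine ⟨z, ?_⟩
    have h2 : ((e i l - γ i : ℤ) : ℚ) = ((N * z : ℤ) : ℚ) := by
      push_cast
      rw [hz, ← he, ← hγg i hi]
      ring
    exact_mod_cast h2
  -- the index set
  set ε : Fin r ⊕ Fin r → ℤ := Sum.elim (fun _ => 1) (fun _ => -1) with hεdef
  let z : Fin r ⊕ Fin r → ℤ := Sum.elim (fun l => e i₁ l) (fun l => -e i₂ l - G)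
  have hε : ∑ i : Fin r ⊕ Fin r, ε i = 0 := by
    simp [hεdef, Fintype.sum_sum_type]
  have hall : ∀ v : (ZMod N)ˣ, ¬ P v → mom N Finset.univ ε z (-v⁻¹) ≤ ((m : ℤ) * N) ^ 2 := by
    intro v hv
    set a : ℤ := (((-v⁻¹ : (ZMod N)ˣ) : ZMod N).val : ℤ) with ha
    have hcop : IsCoprime a (N : ℤ) := by
      rw [ha, Nat.isCoprime_iff_coprime]
      exact ZMod.val_coe_unit_coprime _
    have hau : ((a : ℤ) : ZMod N) = ((-v⁻¹ : (ZMod N)ˣ) : ZMod N) := by
      rw [ha, Int.cast_natCast, ZMod.natCast_zmod_val]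
    obtain ⟨C, hC⟩ := block_gen N hN e i₁ i₂ h12 γ m hm' a hcop (hP v hv a hcop hau).1
      (hP v hv a hcop hau).2
    refine mom_le N Finset.univ ε z hε (-v⁻¹) a hau C _ fun x => ?_
    have h1 : ∑ i : Fin r ⊕ Fin r, ε i * ((a * z i - x) % (N : ℤ)) =
        ∑ l, (a * e i₁ l - x) % (N : ℤ) - ∑ l, (a * (-e i₂ l - G) - x) % (N : ℤ) := by
      rw [Fintype.sum_sum_type]
      simp only [hεdef, z, Sum.elim_inl, Sum.elim_inr, one_mul, neg_one_mul,
        Finset.sum_neg_distrib]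
      ring
    rw [h1, mul_comm (m : ℤ) (N : ℤ)]
    exact hC x
  set S : Finset (ZMod N)ˣ := Finset.univ.filter fun v => P v with hS
  refine ⟨S, ?_, fun v => by simp [hS]⟩
  have h1 : ∑ u : (ZMod N)ˣ, mom N Finset.univ ε z u =
      ∑ v : (ZMod N)ˣ, mom N Finset.univ ε z (-v⁻¹) :=
    (Equiv.sum_comp ((Equiv.inv (ZMod N)ˣ).trans (Equiv.neg (ZMod N)ˣ))
      (fun u => mom N Finset.univ ε z u)).symm
  have h2 : ∑ v : (ZMod N)ˣ, mom N Finset.univ ε z (-v⁻¹) ≤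
      ∑ v : (ZMod N)ˣ, (((m : ℤ) * N) ^ 2 + if v ∈ S then ((r : ℤ) * N) ^ 2 - ((m : ℤ) * N) ^ 2
        else 0) := by
    refine Finset.sum_le_sum fun v _ => ?_
    by_cases hv : v ∈ S
    · rw [if_pos hv]
      have := mom_le_trivial N r z (-v⁻¹)
      linarith
    · rw [if_neg hv, add_zero]
      exact hall v (fun h => hv (Finset.mem_filter.2 ⟨Finset.mem_univ _, h⟩))
  rw [Finset.sum_add_distrib, Finset.sum_const, Finset.card_univ, ZMod.card_units_eq_totient,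
    nsmul_eq_mul, ← Finset.sum_filter, Finset.filter_mem_eq_inter, Finset.univ_inter,
    Finset.sum_const, nsmul_eq_mul, ← h1] at h2
  have h3 := mom_sum N Finset.univ ε z hε
  have h4 : ((∑ u : (ZMod N)ˣ, mom N Finset.univ ε z u : ℤ) : ℚ) ≤
      (((N.totient : ℤ) * ((m : ℤ) * N) ^ 2 + (S.card : ℤ) * (((r : ℤ) * N) ^ 2 -
        ((m : ℤ) * N) ^ 2) : ℤ) : ℚ) := by exact_mod_cast h2
  have h5 : ∑ i : Fin r ⊕ Fin r, ∑ j : Fin r ⊕ Fin r, (ε i : ℚ) * ε j *
      gam (((z i - z j : ℤ) : ℚ) / N) = form (lam i₁) (fun l => lam i₂ l + ∑ i ∈ T, g i) := by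
    have k1 : ∀ l l', (((e i₁ l - e i₁ l' : ℤ) : ℚ) / N) = lam i₁ l - lam i₁ l' := by
      intro l l'
      push_cast
      rw [← he, ← he]
      field_simp
    have k2 : ∀ l l', ((((-e i₂ l - G) - (-e i₂ l' - G) : ℤ) : ℚ) / N) =
        -(lam i₂ l + ∑ i ∈ T, g i - (lam i₂ l' + ∑ i ∈ T, g i)) := by
      intro l l'
      push_cast
      rw [← he, ← he]
      field_simp
      ring
    have k3 : ∀ l l', (((e i₁ l - (-e i₂ l' - G) : ℤ) : ℚ) / N) =
        lam i₁ l + (lam i₂ l' + ∑ i ∈ T, g i) := by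
      intro l l'
      push_cast
      rw [hGq, ← he, ← he]
      field_simp
      ring
    have k4 : ∀ l l', ((((-e i₂ l - G) - e i₁ l' : ℤ) : ℚ) / N) =
        -(lam i₁ l' + (lam i₂ l + ∑ i ∈ T, g i)) := by
      intro l l'
      push_cast
      rw [hGq, ← he, ← he]
      field_simp
      ring
    unfold form
    rw [Fintype.sum_sum_type]
    simp only [Fintype.sum_sum_type, hεdef, z, Sum.elim_inl, Sum.elim_inr]
    simp only [k1, k2, k3, k4, gam_neg]
    simp only [Finset.sum_add_distrib, Finset.sum_sub_distrib]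
    have k5 : ∑ l, ∑ l', gam (lam i₁ l' + (lam i₂ l + ∑ i ∈ T, g i)) =
        ∑ l, ∑ l', gam (lam i₁ l + (lam i₂ l' + ∑ i ∈ T, g i)) := Finset.sum_comm
    have k6 : ∀ f : Fin r → Fin r → ℚ, ∑ l, ∑ l', ((-1 : ℤ) : ℚ) * ((1 : ℤ) : ℚ) * f l l' =
        -∑ l, ∑ l', f l l' := by
      intro f
      simp [Finset.sum_neg_distrib]
    have k7 : ∀ f : Fin r → Fin r → ℚ, ∑ l, ∑ l', ((1 : ℤ) : ℚ) * ((-1 : ℤ) : ℚ) * f l l' =
        -∑ l, ∑ l', f l l' := by
      intro f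
      simp [Finset.sum_neg_distrib]
    have k8 : ∀ f : Fin r → Fin r → ℚ, ∑ l, ∑ l', ((-1 : ℤ) : ℚ) * ((-1 : ℤ) : ℚ) * f l l' =
        ∑ l, ∑ l', f l l' := by
      intro f
      simp
    have k9 : ∀ f : Fin r → Fin r → ℚ, ∑ l, ∑ l', ((1 : ℤ) : ℚ) * ((1 : ℤ) : ℚ) * f l l' =
        ∑ l, ∑ l', f l l' := by
      intro f
      simp
    rw [k6, k7, k8, k9, k5]
    simp only [← Finset.mul_sum]
    ring
  rw [h5] at h3
  set Q := form (lam i₁) (fun l => lam i₂ l + ∑ i ∈ T, g i) with hQ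
  push_cast at h3 h4
  have h6 : (N : ℚ) ^ 2 * ((N.totient : ℚ) * (Q - 3 * (m : ℚ) ^ 2)) ≤
      (N : ℚ) ^ 2 * (3 * ((r : ℚ) ^ 2 - (m : ℚ) ^ 2) * S.card) := by
    nlinarith [h3, h4]
  exact le_of_mul_le_mul_left h6 (by positivity)

end Pool.Agent.Q183.PC
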