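import Pool.Agent.Q183.PC.Many
import Pool.Agent.Q183.PC.FewGen

set_option autoImplicit false
set_option maxHeartbeats 4000000

/-!
Operators with few nontrivial exponents outside two points (helper183).
-/

namespace Pool.Agent.Q183.PC

open Polynomial Finset Pool.Agent.W432.WB Pool.Agent.W432.TC Pool.Agent.W432.HK
open Pool.Agent.Y227.SS Pool.Agent.Y227.SO Pool.Agent.TH571.PCV

/-- All large primes in the class of `-1/a` are bad. -/
def Bad {n : ℕ} (b : Fin (n + 1) → ℤ[X]) (N : ℕ) (a : ℤ) : Prop :=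
  ∃ P₀ : ℕ, ∀ p : ℕ, P₀ < p → (N : ℤ) ∣ a * p + 1 → ∀ _hp : Fact p.Prime, ¬ FullMod b p

lemma nextGe_eq {N : ℕ} (hN : 0 < N) (x y : ℤ) :
    nextGe ((x : ℝ) / N) ((y : ℝ) / N) = ((x + (y - x) % (N : ℤ) : ℤ) : ℝ) / N := by
  have hNr : (0 : ℝ) < N := by exact_mod_cast hN
  have hN' : (N : ℤ) ≠ 0 := by exact_mod_cast hN.ne'
  have h0 := Int.mul_ediv_add_emod (y - x) N
  have h1 := Int.emod_nonneg (y - x) hN'
  have h2 := Int.emod_lt_of_pos (y - x) (show (0 : ℤ) < N by exact_mod_cast hN)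
  have hc : ⌈(x : ℝ) / N - (y : ℝ) / N⌉ = -((y - x) / (N : ℤ)) := by
    rw [Int.ceil_eq_iff, ← sub_div, lt_div_iff₀ hNr, div_le_iff₀ hNr]
    constructor
    · have h3 : (-((y - x) / (N : ℤ)) - 1) * (N : ℤ) < x - y := by nlinarith
      have h4 : (((-((y - x) / (N : ℤ)) - 1) * (N : ℤ) : ℤ) : ℝ) < ((x - y : ℤ) : ℝ) := by
        exact_mod_cast h3
      push_cast at h4 ⊢
      linarith
    · have h3 : x - y ≤ -((y - x) / (N : ℤ)) * (N : ℤ) := by nlinarith
      have h4 : ((x - y : ℤ) : ℝ) ≤ ((-((y - x) / (N : ℤ)) * (N : ℤ) : ℤ) : ℝ) := by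
        exact_mod_cast h3
      push_cast at h4 ⊢
      linarith
  unfold nextGe
  rw [hc]
  have h5 : ((N * ((y - x) / (N : ℤ)) + (y - x) % (N : ℤ) : ℤ) : ℝ) = ((y - x : ℤ) : ℝ) := by
    rw [h0]
  push_cast at h5 ⊢
  field_simp
  linarith

lemma nextGt_eq {N : ℕ} (hN : 0 < N) (x y : ℤ) :
    nextGt (((x - 1 : ℤ) : ℝ) / N) ((y : ℝ) / N) = ((x + (y - x) % (N : ℤ) : ℤ) : ℝ) / N := by
  have hNr : (0 : ℝ) < N := by exact_mod_cast hN
  have hN' : (N : ℤ) ≠ 0 := by exact_mod_cast hN.ne'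
  have h0 := Int.mul_ediv_add_emod (y - x) N
  have h1 := Int.emod_nonneg (y - x) hN'
  have h2 := Int.emod_lt_of_pos (y - x) (show (0 : ℤ) < N by exact_mod_cast hN)
  have hc : ⌊((x - 1 : ℤ) : ℝ) / N - (y : ℝ) / N⌋ = -((y - x) / (N : ℤ)) - 1 := by
    rw [Int.floor_eq_iff, ← sub_div, le_div_iff₀ hNr, div_lt_iff₀ hNr]
    constructor
    · have h3 : (-((y - x) / (N : ℤ)) - 1) * (N : ℤ) ≤ x - 1 - y := by nlinarith
      have h4 : (((-((y - x) / (N : ℤ)) - 1) * (N : ℤ) : ℤ) : ℝ) ≤ ((x - 1 - y : ℤ) : ℝ) := by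
        exact_mod_cast h3
      push_cast at h4 ⊢
      linarith
    · have h3 : x - 1 - y < (-((y - x) / (N : ℤ)) - 1 + 1) * (N : ℤ) := by nlinarith
      have h4 : ((x - 1 - y : ℤ) : ℝ) < (((-((y - x) / (N : ℤ)) - 1 + 1) * (N : ℤ) : ℤ) : ℝ) := by
        exact_mod_cast h3
      push_cast at h4 ⊢
      linarith
  unfold nextGt
  rw [hc]
  have h5 : ((N * ((y - x) / (N : ℤ)) + (y - x) % (N : ℤ) : ℤ) : ℝ) = ((y - x : ℤ) : ℝ) := by
    rw [h0]
  push_cast at h5 ⊢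
  field_simp
  linarith

/-- If the class `a` is not bad, the remainders satisfy the degree inequality, for all shifts. -/
theorem pos_op {m n : ℕ} (hm : 1 ≤ m) {b : Fin (n + 1) → ℤ[X]} {α : Fin m → AlgebraicClosure ℚ}
    {lam : Fin m → Fin n → ℚ} {phi : Fin n → ℚ} (hF : FuchsianWith b α lam phi)
    (N : ℕ) (hN : 0 < N) (e : Fin m → Fin n → ℤ) (e' : Fin n → ℤ)
    (he : ∀ j l, (N : ℚ) * lam j l = e j l) (he' : ∀ l, (N : ℚ) * phi l = e' l)
    (a : ℤ) (hno : ¬ Bad b N a) (x : Fin m → ℤ) :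
    ∑ l, (a * e' l - ∑ j, x j) % (N : ℤ) ≤ ∑ j, ∑ l, (a * e j l - x j) % (N : ℤ) := by
  have hNr : (0 : ℝ) < N := by exact_mod_cast hN
  obtain ⟨hb, Q, hF, hE⟩ := hF
  by_contra hcon
  push Not at hcon
  apply hno
  refine weyl_next_op hm b hb α Q hF lam phi hE N hN (fun j l => ⟨_, he j l⟩)
    (fun l => ⟨_, he' l⟩) a (fun j => (x j : ℝ) / N) (((∑ j, x j - 1 : ℤ) : ℝ) / N) ?_ ?_
  · rw [← Finset.sum_div, div_lt_div_iff_of_pos_right hNr]
    push_cast
    linarith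
  · have h1 : ∀ j l, (a : ℝ) * lam j l = ((a * e j l : ℤ) : ℝ) / N := by
      intro j l
      have := congrArg (fun q : ℚ => (q : ℝ)) (he j l)
      push_cast at this ⊢
      rw [← this]
      field_simp
    have h2 : ∀ l, (a : ℝ) * phi l = ((a * e' l : ℤ) : ℝ) / N := by
      intro l
      have := congrArg (fun q : ℚ => (q : ℝ)) (he' l)
      push_cast at this ⊢
      rw [← this]
      field_simp
    simp only [h1, h2, nextGe_eq hN, nextGt_eq hN, ← Finset.sum_div]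
    rw [div_lt_div_iff_of_pos_right hNr]
    have h3 : ∑ j, ∑ l, (x j + (a * e j l - x j) % (N : ℤ)) <
        ∑ l, (∑ j, x j + (a * e' l - ∑ j, x j) % (N : ℤ)) := by
      simp only [Finset.sum_add_distrib, Finset.sum_const, Finset.card_univ, Fintype.card_fin,
        nsmul_eq_mul, ← Finset.mul_sum]
      linarith
    exact_mod_cast h3

section

variable {m n : ℕ} {b : Fin (n + 1) → ℤ[X]} {α : Fin m → AlgebraicClosure ℚ}
  {lam : Fin (m + 1) → Fin n → ℚ}

theorem sym_lower_op (hm : 1 ≤ m)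
    (hF : FuchsianWith b α (fun j => lam j.castSucc) (fun l => -lam (Fin.last m) l))
    (N : ℕ) (hN : 0 < N) (e : Fin (m + 1) → Fin n → ℤ)
    (he : ∀ i l, (N : ℚ) * lam i l = e i l) (a : ℤ) (hno : ¬ Bad b N a)
    (x : Fin (m + 1) → ℤ) (hx : ∑ i, x i = 1) :
    (n : ℤ) * (N - 1) ≤ ∑ i, ∑ l, (a * e i l - x i) % (N : ℤ) := by
  have hN' : (0 : ℤ) < N := by exact_mod_cast hN
  have h1 := pos_op hm hF N hN (fun j => e j.castSucc)
    (fun l => -e (Fin.last m) l) (fun j l => he _ _)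
    (fun l => by rw [mul_neg, he]; push_cast; ring) a hno (fun j => x j.castSucc)
  rw [Fin.sum_univ_castSucc] at hx ⊢
  have h2 : ∀ l, (a * -e (Fin.last m) l - ∑ j : Fin m, x j.castSucc) % (N : ℤ) =
      (N - 1) - (a * e (Fin.last m) l - x (Fin.last m)) % (N : ℤ) := by
    intro l
    rw [← neg_sub_one_emod hN']
    congr 1
    linarith
  rw [Finset.sum_congr rfl fun l _ => h2 l, Finset.sum_sub_distrib, Finset.sum_const,
    Finset.card_univ, Fintype.card_fin, nsmul_eq_mul] at h1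
  linarith

theorem sym_upper_op (hm : 1 ≤ m)
    (hF : FuchsianWith b α (fun j => lam j.castSucc) (fun l => -lam (Fin.last m) l))
    (N : ℕ) (hN : 0 < N) (e : Fin (m + 1) → Fin n → ℤ)
    (he : ∀ i l, (N : ℚ) * lam i l = e i l) (a : ℤ) (hno : ¬ Bad b N (-a))
    (x : Fin (m + 1) → ℤ) (hx : ∑ i, x i = m) :
    ∑ i, ∑ l, (a * e i l - x i) % (N : ℤ) ≤ (m : ℤ) * (n * (N - 1)) := by
  have hN' : (0 : ℤ) < N := by exact_mod_cast hN
  have h1 := pos_op hm hF N hN (fun j => e j.castSucc)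
    (fun l => -e (Fin.last m) l) (fun j l => he _ _)
    (fun l => by rw [mul_neg, he]; push_cast; ring) (-a) hno (fun j => 1 - x j.castSucc)
  rw [Fin.sum_univ_castSucc] at hx ⊢
  have h2 : ∀ (j : Fin m) (l : Fin n), (-a * e j.castSucc l - (1 - x j.castSucc)) % (N : ℤ) =
      (N - 1) - (a * e j.castSucc l - x j.castSucc) % (N : ℤ) := by
    intro j l
    rw [← neg_sub_one_emod hN']
    congr 1
    ring
  have h3 : ∑ j : Fin m, (1 - x j.castSucc) = x (Fin.last m) := by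
    rw [Finset.sum_sub_distrib, Finset.sum_const, Finset.card_univ, Fintype.card_fin,
      nsmul_eq_mul]
    linarith
  rw [h3] at h1
  simp only [h2, neg_mul_neg, Finset.sum_sub_distrib, Finset.sum_const, Finset.card_univ,
    Fintype.card_fin, nsmul_eq_mul] at h1
  linarith

/-- **Operators with few nontrivial exponents outside two points.** -/
theorem few_op (hm : 1 ≤ m)
    (hF : FuchsianWith b α (fun j => lam j.castSucc) (fun l => -lam (Fin.last m) l))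
    (i₁ i₂ : Fin (m + 1)) (h12 : i₁ ≠ i₂) (g : Fin (m + 1) → ℚ) (k : ℕ) (hkn : k < n)
    (hk : ∑ i ∈ (Finset.univ.erase i₁).erase i₂,
      (Finset.univ.filter fun l => (lam i l - g i).den ≠ 1).card ≤ k)
    (N : ℕ) (hN : 0 < N) (hNlam : ∀ i l, ∃ z : ℤ, (N : ℚ) * lam i l = z)
    (hNg : ∀ i ∈ (Finset.univ.erase i₁).erase i₂, ∃ z : ℤ, (N : ℚ) * g i = z) :
    BadPrimes b N (((form (lam i₁)
      (fun l => lam i₂ l + ∑ i ∈ (Finset.univ.erase i₁).erase i₂, g i) - 3 * (k : ℚ) ^ 2) /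
        (6 * ((n : ℚ) ^ 2 - (k : ℚ) ^ 2)) : ℚ) : ℝ) := by
  classical
  choose e he using hNlam
  have : NeZero N := ⟨hN.ne'⟩
  set Q := form (lam i₁) (fun l => lam i₂ l + ∑ i ∈ (Finset.univ.erase i₁).erase i₂, g i) with hQ
  -- the class of `v` is bad
  let B : (ZMod N)ˣ → Prop := fun v => ∃ P₀ : ℕ, ∀ p : ℕ, P₀ < p →
    ((p : ℕ) : ZMod N) = ((v : (ZMod N)ˣ) : ZMod N) → ∀ _hp : Fact p.Prime, ¬ FullMod b p
  have hB : ∀ (v : (ZMod N)ˣ) (a : ℤ), ((a : ℤ) : ZMod N) = ((-v⁻¹ : (ZMod N)ˣ) : ZMod N) →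
      Bad b N a → B v := by
    rintro v a hav ⟨P₀, hP₀⟩
    refine ⟨P₀, fun p hp hpv _hp => hP₀ p hp ?_ _hp⟩
    rw [← ZMod.intCast_zmod_eq_zero_iff_dvd]
    push_cast
    rw [hav, hpv, ← Units.val_mul, neg_mul, inv_mul_cancel]
    simp
  obtain ⟨S, hS1, hS2⟩ := few_gen lam i₁ i₂ h12 g k hk N hN e he hNg
    (fun v => B v ∨ B (-v)) (by
      intro v hv a ha hav
      push Not at hv
      refine ⟨sym_lower_op hm hF N hN e he a (fun h => hv.1 (hB v a hav h)),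
        sym_upper_op hm hF N hN e he a (fun h => hv.2 (hB (-v) (-a) ?_ h))⟩
      push_cast
      rw [hav]
      simp)
  -- the bad classes
  set S' : Finset (ZMod N)ˣ := Finset.univ.filter B with hS'
  have hcard : S.card ≤ 2 * S'.card := by
    have h1 : S ⊆ S' ∪ S'.image (fun v => -v) := by
      intro v hv
      rw [hS2] at hv
      rw [Finset.mem_union, Finset.mem_image]
      rcases hv with hv | hv
      · left; simpa [hS'] using hv
      · right; exact ⟨-v, by simpa [hS'] using hv, by simp⟩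
    calc S.card ≤ (S' ∪ S'.image (fun v => -v)).card := Finset.card_le_card h1
      _ ≤ S'.card + (S'.image (fun v => -v)).card := Finset.card_union_le _ _
      _ ≤ S'.card + S'.card := by
          have := Finset.card_image_le (s := S') (f := fun v => -v)
          omega
      _ = 2 * S'.card := by ring
  have hkn' : (k : ℚ) < n := by exact_mod_cast hkn
  have hpos : (0 : ℚ) < (n : ℚ) ^ 2 - (k : ℚ) ^ 2 := by
    have : (0 : ℚ) ≤ k := Nat.cast_nonneg k
    nlinarith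
  have h1 : ∀ v : (ZMod N)ˣ, ∃ P₀ : ℕ, v ∈ S' → ∀ p : ℕ, P₀ < p →
      ((p : ℕ) : ZMod N) = ((v : (ZMod N)ˣ) : ZMod N) → ∀ _hp : Fact p.Prime, ¬ FullMod b p := by
    intro v
    by_cases hv : v ∈ S'
    · obtain ⟨P₀, hP⟩ := (Finset.mem_filter.1 hv).2
      exact ⟨P₀, fun _ => hP⟩
    · exact ⟨0, fun h => absurd h hv⟩
  choose f hf using h1
  refine ⟨S', ∑ v : (ZMod N)ˣ, f v, ?_, ?_⟩
  · have h2 : (Q - 3 * (k : ℚ) ^ 2) / (6 * ((n : ℚ) ^ 2 - (k : ℚ) ^ 2)) * N.totient ≤ S'.card := by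
      rw [div_mul_eq_mul_div, div_le_iff₀ (by positivity)]
      have h3 : (S.card : ℚ) ≤ 2 * S'.card := by exact_mod_cast hcard
      have h4 := mul_le_mul_of_nonneg_left h3 (show (0 : ℚ) ≤ 3 * ((n : ℚ) ^ 2 - (k : ℚ) ^ 2) by
        positivity)
      linarith
    exact_mod_cast h2
  · rintro p hp ⟨v, hv, hpv⟩ _hp
    have h2 : f v ≤ ∑ v : (ZMod N)ˣ, f v :=
      Finset.single_le_sum (f := f) (fun _ _ => Nat.zero_le _) (Finset.mem_univ v)
    exact hf v hv p (lt_of_le_of_lt h2 hp) hpv _hp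

end

end Pool.Agent.Q183.PC
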