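import Pool.Agent.Y227.SO.Density
import Pool.Agent.TH141.PC.Sharp

set_option autoImplicit false

open Polynomial Finset Pool.Agent.W432.WB Pool.Agent.W432.TC Pool.Agent.W432.HK Pool.Agent.Y227.SS
open Pool.Agent.Y227.SO

namespace Pool.Agent.Q183.PC

/-- Exponents with small lifts violate the Weyl inequalities. -/
lemma not_weyl_of_small {m n : ℕ} (hn : 0 < n) (x x' : Fin m → Fin n → ℝ) (y y' : Fin n → ℝ)
    (hx : ∀ j l, ∃ z : ℤ, x j l = x' j l + z) (hy : ∀ l, ∃ z : ℤ, y l = y' l + z)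
    (h : ∀ (κ : Fin m → Fin n) (s : Fin n), 0 < ∑ j, x' j (κ j) - y' s ∧
      ∑ j, x' j (κ j) - y' s < 1) : ¬ Weyl x y := by
  intro hW
  have : NeZero n := ⟨hn.ne'⟩
  -- the least exponents at the finite points and the largest at infinity
  have hmin : ∀ j, ∃ l0 : Fin n, ∀ l, x' j l0 ≤ x' j l := fun j =>
    (Finite.exists_min (x' j))
  choose κ hκ using hmin
  obtain ⟨s, hs⟩ := Finite.exists_max y'
  have hr1 : ∀ j l, x' j l - x' j (κ j) < 1 := by
    intro j l
    have h1 := (h (Function.update κ j l) s).2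
    have h2 := (h κ s).1
    have h3 : ∑ i, x' i (Function.update κ j l i) - ∑ i, x' i (κ i) = x' j l - x' j (κ j) := by
      rw [← sum_sub_distrib, sum_eq_single j]
      · simp
      · intro b _ hb
        rw [Function.update_of_ne hb, sub_self]
      · intro hcon
        exact absurd (mem_univ _) hcon
    linarith
  have hr2 : ∀ l, y' s - y' l < 1 := by
    intro l
    have h1 := (h κ s).1
    have h2 := (h κ l).2
    linarith
  have h1 := hW (fun j => x' j (κ j)) (y' s) (by have := (h κ s).1; linarith)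
  have h2 : ∀ l, nextGt (y' s) (y l) = y' l + 1 := by
    intro l
    obtain ⟨z, hz⟩ := hy l
    rw [hz, nextGt_add_int]
    unfold nextGt
    have h3 : ⌊y' s - y' l⌋ = 0 := by
      rw [Int.floor_eq_zero_iff]
      exact ⟨by have := hs l; linarith, hr2 l⟩
    rw [h3]
    push_cast
    ring
  have h3 : ∀ j l, nextGe (x' j (κ j)) (x j l) = x' j l := by
    intro j l
    obtain ⟨z, hz⟩ := hx j l
    rw [hz, nextGe_add_int]
    unfold nextGe
    have h4 : ⌈x' j (κ j) - x' j l⌉ = 0 := by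
      rw [Int.ceil_eq_zero_iff]
      exact ⟨by have := hr1 j l; linarith, by have := hκ j l; linarith⟩
    rw [h4]
    push_cast
    ring
  simp only [h2, h3] at h1
  rw [sum_add_distrib, sum_const, card_univ, Fintype.card_fin, nsmul_eq_mul, mul_one, sum_comm] at h1
  have h4 : ∑ l : Fin n, (∑ j, x' j l - y' l) < ∑ _l : Fin n, (1 : ℝ) :=
    sum_lt_sum_of_nonempty univ_nonempty fun l _ => (h (fun _ => l) l).2
  rw [sum_const, card_univ, Fintype.card_fin, nsmul_eq_mul, mul_one, sum_sub_distrib] at h4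
  linarith

/-- From a bad set of classes to one class. -/
lemma class_of_badPrimes {n : ℕ} {b : Fin (n + 1) → ℤ[X]} {N : ℕ} (hN : 0 < N) {ε : ℝ}
    (hε : 0 < ε) (h : BadPrimes b N ε) : BadClass b N := by
  obtain ⟨S, P₀, hS, hbad⟩ := h
  have : NeZero N := ⟨hN.ne'⟩
  have hpos : (0 : ℝ) < S.card := lt_of_lt_of_le
    (mul_pos hε (by exact_mod_cast Nat.totient_pos.mpr hN)) hS
  have hne : S.Nonempty := by
    rw [← Finset.card_pos]
    exact_mod_cast hpos
  obtain ⟨v, hv⟩ := hne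
  refine ⟨-((((v⁻¹ : (ZMod N)ˣ) : ZMod N).val : ℕ) : ℤ), ?_, P₀, fun p hp hap _hp =>
    hbad p hp ⟨v, hv, ?_⟩ _hp⟩
  · rw [IsCoprime.neg_left_iff]
    exact Nat.isCoprime_iff_coprime.mpr (ZMod.val_coe_unit_coprime _)
  · have h1 := (ZMod.intCast_zmod_eq_zero_iff_dvd _ _).mpr hap
    push_cast at h1
    rw [ZMod.natCast_zmod_val] at h1
    have h2 : ((v⁻¹ : (ZMod N)ˣ) : ZMod N) * ((p : ℕ) : ZMod N) = 1 := by
      linear_combination -h1
    calc ((p : ℕ) : ZMod N) = (v : ZMod N) * (((v⁻¹ : (ZMod N)ˣ) : ZMod N) * ((p : ℕ) : ZMod N)) := by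
          rw [← mul_assoc, Units.mul_inv, one_mul]
      _ = v := by rw [h2, mul_one]

/-- A bad class contradicts the condition. -/
lemma not_cond_of_class {n : ℕ} {b : Fin (n + 1) → ℤ[X]} {N : ℕ} (hN : 0 < N)
    (h : BadClass b N) : ¬ Cond b := by
  rintro ⟨K, hK⟩
  obtain ⟨a, ha, P₀, hP₀⟩ := h
  obtain ⟨p, hp1, hp2, hp3⟩ := exists_prime_class hN ha (max P₀ K)
  have hp : Fact p.Prime := ⟨hp2⟩
  exact hP₀ p (lt_of_le_of_lt (le_max_left _ _) hp1) hp3 hp
    (hK p (lt_of_le_of_lt (le_max_right _ _) hp1) hp)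

/-- A violation of the Weyl inequalities by a conjugate of the exponents gives many bad primes. -/
theorem exists_eps (m n : ℕ) (hm : 1 ≤ m) (hn : 1 ≤ n) : ∃ ε : ℝ, 0 < ε ∧
    ∀ (b : Fin (n + 1) → ℤ[X]) (α : Fin m → AlgebraicClosure ℚ) (lam : Fin m → Fin n → ℚ)
      (phi : Fin n → ℚ) (N : ℕ), FuchsianWith b α lam phi → CommonDen lam phi N →
      (∃ a : ℤ, IsCoprime a (N : ℤ) ∧ ¬ WeylBoth (fun i => (a : ℝ) * expVec lam phi i)) →
      BadPrimes b N ε := by
  obtain ⟨ε, 𝒟, hε, -, h⟩ := density m n hm hn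
  refine ⟨ε, hε, fun b α lam phi N hF hN hW => ?_⟩
  obtain ⟨a, ha, hW⟩ := hW
  rcases (h b α).1 lam phi N hF hN with h1 | h1
  · exact h1
  · exact absurd (h1.1 a ha).1 hW

/-- Operators with many exponents modulo the integers. -/
theorem many (m n : ℕ) (hm : 1 ≤ m) (hn : 1 ≤ n) : ∃ ε : ℝ, 0 < ε ∧
    ∀ (b : Fin (n + 1) → ℤ[X]) (α : Fin m → AlgebraicClosure ℚ) (N : ℕ) (_hN : 1 < N)
      (E : Option (Fin m) → Fin n → ℤ),
      FuchsianWith b α (fun j l => (E (some j) l : ℚ) / N) (fun l => -(E none l : ℚ) / N) →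
      (∀ x l l', IsCoprime (E x l - E x l') (N : ℤ) ∨ (N : ℤ) ∣ E x l - E x l') →
      (∀ κ : Option (Fin m) → Fin n, ¬ (N : ℤ) ∣ ∑ x, E x (κ x)) →
      ∀ s : Option (Fin m) → ℕ, (∀ x, (univ.image fun l => (E x l : ZMod N)).card = s x) →
      N < ∑ x ∈ univ.filter (fun x => 2 ≤ s x), s x →
      BadPrimes b N ε ∧ ¬ Cond b := by
  obtain ⟨ε, hε, h⟩ := exists_eps m n hm hn
  refine ⟨ε, hε, fun b α N hN E hF h1 h2 s hs h3 => ?_⟩
  have hN0 : 0 < N := by omega
  have : NeZero N := ⟨hN0.ne'⟩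
  have hNr : (0 : ℝ) < N := by exact_mod_cast hN0
  have hNq : (N : ℚ) ≠ 0 := by exact_mod_cast hN0.ne'
  suffices hb : BadPrimes b N ε from ⟨hb, not_cond_of_class hN0 (class_of_badPrimes hN0 hε hb)⟩
  refine h b α _ _ N hF ⟨hN0, fun j l => ⟨E (some j) l, by field_simp⟩,
    fun l => ⟨-E none l, by push_cast; field_simp⟩⟩ ?_
  obtain ⟨u, y, hy, c, hc⟩ := Pool.Agent.TH141.PC.exists_lift_sharp (N := N) hn
    (E := fun x l => ((E x l : ℤ) : ZMod N)) (fun x l l' => by
      rcases h1 x l l' with h | h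
      · right
        rw [← Int.cast_sub]
        exact (ZMod.coe_int_isUnit_iff_isCoprime _ _).2 h.symm
      · left
        rw [← sub_eq_zero, ← Int.cast_sub, ZMod.intCast_zmod_eq_zero_iff_dvd]
        exact h) (by
      have h5 : ∀ x, (Pool.Agent.TH141.PC.cl (fun x l => ((E x l : ℤ) : ZMod N)) x).card = s x := hs
      simp only [h5]
      exact h3) (fun κ h => h2 κ (by
    rw [← ZMod.intCast_zmod_eq_zero_iff_dvd]
    push_cast
    exact h))
  obtain ⟨a, ha⟩ : ∃ a : ℤ, (a : ZMod N) = u :=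
    ⟨(u : ZMod N).val, by rw [Int.cast_natCast, ZMod.natCast_zmod_val]⟩
  have haN : IsCoprime a (N : ℤ) := by
    rw [← isCoprime_comm, ← ZMod.coe_int_isUnit_iff_isCoprime, ha]
    exact u.isUnit
  have hdvd : ∀ x l, (N : ℤ) ∣ a * E x l - y x l := fun x l => by
    rw [← ZMod.intCast_zmod_eq_zero_iff_dvd]
    push_cast
    rw [hy, ha]
    ring
  choose t ht using hdvd
  have htr : ∀ x l, (a : ℝ) * E x l = y x l + N * t x l := fun x l => by
    have := ht x l
    have h' : a * E x l = y x l + N * t x l := by linarith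
    exact_mod_cast h'
  refine ⟨a, haN, fun hW => ?_⟩
  refine not_weyl_of_small hn _ (fun j l => (y (some j) l : ℝ) / N) _
    (fun l => -((y none l : ℝ) - c * N) / N) (fun j l => ⟨t (some j) l, ?_⟩)
    (fun l => ⟨-t none l - c, ?_⟩) (fun κ l => ?_) hW.1
  · simp only [expVec, Sum.elim_inl]
    push_cast
    field_simp
    linarith [htr (some j) l]
  · simp only [expVec, Sum.elim_inr]
    push_cast
    field_simp
    linarith [htr none l]
  · have h5 := hc (fun x => x.elim l κ)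
    rw [Fintype.sum_option] at h5
    simp only [Option.elim] at h5
    have h6 : (c : ℝ) * N < y none l + ∑ j, (y (some j) (κ j) : ℝ) := by exact_mod_cast h5.1
    have h7 : (y none l : ℝ) + ∑ j, (y (some j) (κ j) : ℝ) < (c + 1) * N := by exact_mod_cast h5.2
    have h8 : ∑ j, (y (some j) (κ j) : ℝ) / N - -((y none l : ℝ) - c * N) / N =
        (y none l + ∑ j, (y (some j) (κ j) : ℝ) - c * N) / N := by
      rw [← sum_div]
      ring
    rw [h8]
    constructor
    · apply div_pos _ hNr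
      linarith
    · rw [div_lt_one hNr]
      linarith

end Pool.Agent.Q183.PC
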